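import Mathlib

/-!
# q-inversion symmetry for the sums attached to words in x, y, z

For every `N ≥ 0` and every word `w = u₁ ⋯ u_k` with `u₁ = y`, `u_k = x` (and for the empty
word) the rational function `Z_{N,q}(w)` satisfies `Z_{N,1/q}(w) = (-1)^k Z_{N,q}(w)`.

Idea of the proof.  Put `p = n + a`, `m = N + b - n`.  Then `Z_{N,q}(w)` is a sum over lattice
paths from `(0, N + #x)` to `(N + #y, 0)` with free diagonal steps `(p, m) → (p+1, m-1)`,
a `y`-step `(p, m) → (p+1, m)` of weight `Y m`, an `x`-step `(p, m) → (p, m-1)` of weight `X p`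
and a `z`-step of weight `X p + Y m`.  Inversion of `q` replaces the weights by other ones, and
the two value functions are intertwined by an explicit triangular operator (`T` below), which is
the identity at `p = 0`.
-/

namespace Pool.Agent.Results.MP_aa79fc_nt.QInversion

open Finset

/-- The three letters `x`, `y`, `z`. -/
inductive Letter
  | x | y | z
  deriving DecidableEq

open Letter

/-- For the word `w = u₀ u₁ ⋯` (positions counted from `0`), `aIdx w j` is the number of letters
`y` among `u₀, …, u_j`. -/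
def aIdx (w : List Letter) (j : ℕ) : ℕ := (w.take (j + 1)).count y

/-- For the word `w = u₀ u₁ ⋯ u_{k-1}` (positions counted from `0`), `bIdx w j` is the number of
letters `x` among `u_j, …, u_{k-1}`. -/
def bIdx (w : List Letter) (j : ℕ) : ℕ := (w.drop j).count x

/-- The factor contributed by position `j` of the word `w` when the summation variable of that
position has the value `n`. -/
def factor {K : Type*} [Field K] (q : K) (N : ℕ) (w : List Letter) (j : Fin w.length)
    (n : ℕ) : K :=
  match w.get j with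
  | x => 1 / (1 - q ^ ((n : ℤ) + (aIdx w j : ℤ)))
  | y => -1 / (1 - q ^ ((n : ℤ) - (N : ℤ) - (bIdx w j : ℤ)))
  | z => 1 / (1 - q ^ ((n : ℤ) + (aIdx w j : ℤ)))
          - 1 / (1 - q ^ ((n : ℤ) - (N : ℤ) - (bIdx w j : ℤ)))

open Classical in
/-- `Z q N w` is the sum, over all weakly increasing sequences `n₀ ≤ n₁ ≤ ⋯ ≤ n_{k-1}` with
values in `{0, …, N}`, of the product of the factors of all positions of `w`. -/
noncomputable def Z {K : Type*} [Field K] (q : K) (N : ℕ) (w : List Letter) : K :=
  ∑ n ∈ (Finset.univ : Finset (Fin w.length → Fin (N + 1))).filter (fun n => Monotone n),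
    ∏ j : Fin w.length, factor q N w j (n j : ℕ)

section Algebra

variable {K : Type*} [Field K]

/-- `(q^p; q)_i`. -/
def A (q : K) (i p : ℕ) : K := ∏ j ∈ range i, (1 - q ^ (p + j))

/-- `(q^{-m}; q)_i`. -/
def B (q : K) (i m : ℕ) : K := ∏ j ∈ range i, (1 - q ^ ((j : ℤ) - (m : ℤ)))

lemma A_zero (q : K) (p : ℕ) : A q 0 p = 1 := by simp [A]
lemma B_zero (q : K) (m : ℕ) : B q 0 m = 1 := by simp [B]

lemma A_succ (q : K) (i p : ℕ) : A q (i + 1) p = A q i p * (1 - q ^ (p + i)) := by
  simp [A, prod_range_succ]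

lemma A_succ' (q : K) (i p : ℕ) : A q (i + 1) p = A q i (p + 1) * (1 - q ^ p) := by
  simp only [A, prod_range_succ']
  simp only [add_zero]
  congr 1
  apply prod_congr rfl
  intro j _
  rw [show p + (j + 1) = p + 1 + j by ring]

lemma B_succ (q : K) (i m : ℕ) : B q (i + 1) m = B q i m * (1 - q ^ ((i : ℤ) - (m : ℤ))) := by
  simp [B, prod_range_succ]

lemma B_succ' (q : K) (i m : ℕ) :
    B q (i + 1) (m + 1) = B q i m * (1 - q ^ (-((m : ℤ) + 1))) := by
  simp only [B, prod_range_succ']
  have h1 : ∏ j ∈ range i, (1 - q ^ (((j + 1 : ℕ) : ℤ) - ((m + 1 : ℕ) : ℤ))) =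
      ∏ j ∈ range i, (1 - q ^ ((j : ℤ) - (m : ℤ))) := by
    apply prod_congr rfl
    intro j _
    rw [show (((j + 1 : ℕ) : ℤ) - ((m + 1 : ℕ) : ℤ)) = (j : ℤ) - (m : ℤ) by push_cast; ring]
  have h2 : (((0 : ℕ) : ℤ) - ((m + 1 : ℕ) : ℤ)) = -((m : ℤ) + 1) := by push_cast; ring
  rw [h1, h2]

lemma B_self (q : K) (m : ℕ) : B q (m + 1) m = 0 := by
  rw [B_succ]; simp

lemma A_ne (q : K) (hq : ∀ n : ℕ, 0 < n → q ^ n ≠ 1) (i : ℕ) : A q i 1 ≠ 0 := by
  rw [A, prod_ne_zero_iff]
  intro j _
  rw [sub_ne_zero]
  exact (hq _ (by omega)).symm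

lemma A_zero_succ (q : K) (i : ℕ) : A q (i + 1) 0 = 0 := by
  rw [A_succ']; simp

/-- The intertwining operator. -/
def T (q : K) (f : ℕ → ℕ → K) (p m : ℕ) : K :=
  q ^ (-((p : ℤ) * (m : ℤ))) *
    ∑ i ∈ range (m + 1), q ^ i * B q i m * A q i p / A q i 1 * f (p + i) (m - i)

/-- Coefficients of the second operator. -/
def c (q : K) (p m i : ℕ) : K := B q i m * A q i (p + 1) / A q i 1

lemma T_rec (q : K) (hq0 : q ≠ 0) (hq : ∀ n : ℕ, 0 < n → q ^ n ≠ 1) (f : ℕ → ℕ → K)
    (p m : ℕ) :
    T q f p (m + 1) = T q f (p + 1) m +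
      q ^ (-((p : ℤ) * ((m : ℤ) + 1))) *
        ∑ i ∈ range (m + 1), c q p m i * (f (p + i) (m + 1 - i) - f (p + i + 1) (m - i)) := by
  have h1 : T q f p (m + 1) = q ^ (-((p : ℤ) * ((m : ℤ) + 1))) *
      (f p (m + 1) + ∑ i ∈ range (m + 1),
        q ^ (i + 1) * B q (i + 1) (m + 1) * A q (i + 1) p / A q (i + 1) 1
          * f (p + i + 1) (m - i)) := by
    rw [T, sum_range_succ']
    have hs : ∑ i ∈ range (m + 1), q ^ (i + 1) * B q (i + 1) (m + 1) * A q (i + 1) p /
          A q (i + 1) 1 * f (p + (i + 1)) (m + 1 - (i + 1)) =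
        ∑ i ∈ range (m + 1), q ^ (i + 1) * B q (i + 1) (m + 1) * A q (i + 1) p /
          A q (i + 1) 1 * f (p + i + 1) (m - i) := by
      apply sum_congr rfl
      intro i _
      rw [show p + (i + 1) = p + i + 1 by ring, show m + 1 - (i + 1) = m - i by omega]
    rw [hs]
    push_cast
    simp only [pow_zero, B_zero, A_zero, add_zero]
    ring
  have h2 : ∑ i ∈ range (m + 1), c q p m i * (f (p + i) (m + 1 - i) - f (p + i + 1) (m - i))
      = f p (m + 1) + ∑ i ∈ range (m + 1), (c q p m (i + 1) - c q p m i)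
          * f (p + i + 1) (m - i) := by
    have h3 : ∑ i ∈ range (m + 1), c q p m i * f (p + i) (m + 1 - i)
        = ∑ i ∈ range (m + 1 + 1), c q p m i * f (p + i) (m + 1 - i) := by
      rw [sum_range_succ _ (m + 1)]
      have : c q p m (m + 1) = 0 := by simp [c, B_self]
      rw [this]; ring
    have h4 : ∑ i ∈ range (m + 1), c q p m i * (f (p + i) (m + 1 - i) - f (p + i + 1) (m - i))
        = ∑ i ∈ range (m + 1), c q p m i * f (p + i) (m + 1 - i)
          - ∑ i ∈ range (m + 1), c q p m i * f (p + i + 1) (m - i) := by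
      rw [← sum_sub_distrib]
      apply sum_congr rfl
      intro i _
      ring
    rw [h4, h3, sum_range_succ']
    have h5 : ∑ i ∈ range (m + 1), (c q p m (i + 1) - c q p m i) * f (p + i + 1) (m - i)
        = ∑ i ∈ range (m + 1), c q p m (i + 1) * f (p + i + 1) (m - i)
          - ∑ i ∈ range (m + 1), c q p m i * f (p + i + 1) (m - i) := by
      rw [← sum_sub_distrib]
      apply sum_congr rfl
      intro i _
      ring
    rw [h5]
    have h6 : ∑ i ∈ range (m + 1), c q p m (i + 1) * f (p + (i + 1)) (m + 1 - (i + 1))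
        = ∑ i ∈ range (m + 1), c q p m (i + 1) * f (p + i + 1) (m - i) := by
      apply sum_congr rfl
      intro i _
      rw [show p + (i + 1) = p + i + 1 by ring, show m + 1 - (i + 1) = m - i by omega]
    rw [h6]
    simp only [c, B_zero, A_zero, add_zero, Nat.sub_zero]
    ring
  rw [h1, h2, T, mul_add (q ^ (-((p : ℤ) * ((m : ℤ) + 1)))) (f p (m + 1)),
    mul_add (q ^ (-((p : ℤ) * ((m : ℤ) + 1)))) (f p (m + 1))]
  have key : ∀ i ∈ range (m + 1),
      q ^ (-((p : ℤ) * ((m : ℤ) + 1))) *
        (q ^ (i + 1) * B q (i + 1) (m + 1) * A q (i + 1) p / A q (i + 1) 1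
          * f (p + i + 1) (m - i)) =
      q ^ (-(((p + 1 : ℕ) : ℤ) * (m : ℤ))) *
        (q ^ i * B q i m * A q i (p + 1) / A q i 1 * f (p + 1 + i) (m - i))
      + q ^ (-((p : ℤ) * ((m : ℤ) + 1))) * ((c q p m (i + 1) - c q p m i)
          * f (p + i + 1) (m - i)) := by
    intro i _
    have hA1 : A q (i + 1) 1 = A q i 1 * (1 - q ^ (i + 1)) := by
      rw [A_succ, add_comm 1 i]
    have hne : A q i 1 ≠ 0 := A_ne q hq i
    have hne2 : (1 - q ^ (i + 1)) ≠ 0 := by
      rw [sub_ne_zero]; exact (hq _ (by omega)).symm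
    have e1 : q ^ (-(((p + 1 : ℕ) : ℤ) * (m : ℤ))) =
        q ^ (-((p : ℤ) * ((m : ℤ) + 1))) * (q ^ p * q ^ (-(m : ℤ))) := by
      rw [← zpow_natCast q p, ← zpow_add₀ hq0, ← zpow_add₀ hq0]
      congr 1
      push_cast
      ring
    rw [e1]
    simp only [c]
    rw [hA1, A_succ' q i p, B_succ' q i m, B_succ q i m, A_succ q i (p + 1)]
    rw [show p + 1 + i = p + i + 1 by ring]
    have e2 : q ^ (-((m : ℤ) + 1)) = q ^ (-(m : ℤ)) * q⁻¹ := by
      rw [neg_add, zpow_add₀ hq0, zpow_neg_one]
    have e3 : q ^ ((i : ℤ) - (m : ℤ)) = q ^ i * q ^ (-(m : ℤ)) := by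
      rw [sub_eq_add_neg, zpow_add₀ hq0, zpow_natCast]
    rw [e2, e3]
    have e4 : q ^ (p + i + 1) = q ^ p * q ^ i * q := by ring
    have e5 : q ^ (i + 1) = q ^ i * q := by ring
    rw [e5] at hne2
    rw [e4, e5]
    field_simp
    ring
  rw [mul_sum (range (m + 1)) (fun i => q ^ (i + 1) * B q (i + 1) (m + 1) * A q (i + 1) p /
    A q (i + 1) 1 * f (p + i + 1) (m - i)), sum_congr rfl key, sum_add_distrib, ← mul_sum,
    ← mul_sum]
  ring

/-- The contribution of one letter, processed at the lattice point `(p, m)`. -/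
def step (X Y : ℕ → K) (V : ℕ → ℕ → K) (u : Letter) (p m : ℕ) : K :=
  match u with
  | x => X p * V p (m - 1)
  | y => Y m * V (p + 1) m
  | z => (X p + Y m) * V p m

/-- The value function of a word. -/
def V (X Y : ℕ → K) : List Letter → ℕ → ℕ → K
  | [] => fun _ _ => 1
  | u :: w => fun p m => ∑ i ∈ range m, step X Y (V X Y w) u (p + i) (m - i)

lemma V_cons_zero (X Y : ℕ → K) (u : Letter) (w : List Letter) (p : ℕ) :
    V X Y (u :: w) p 0 = 0 := by
  simp [V]

lemma V_cons_succ (X Y : ℕ → K) (u : Letter) (w : List Letter) (p m : ℕ) :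
    V X Y (u :: w) p (m + 1) = step X Y (V X Y w) u p (m + 1) + V X Y (u :: w) (p + 1) m := by
  simp only [V]
  rw [sum_range_succ', add_comm]
  congr 1
  apply sum_congr rfl
  intro i _
  rw [show p + (i + 1) = p + 1 + i by ring, show m + 1 - (i + 1) = m - i by omega]

lemma V_eq_zero (X Y : ℕ → K) (w : List Letter) : ∀ p m : ℕ, m < w.count x →
    V X Y w p m = 0 := by
  induction w with
  | nil => intro p m h; simp at h
  | cons u w ih =>
    intro p m h
    simp only [V]
    apply sum_eq_zero
    intro i hi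
    rw [mem_range] at hi
    cases u with
    | x =>
      simp only [List.count_cons_self] at h
      simp only [step]
      rw [ih _ _ (by omega), mul_zero]
    | y =>
      rw [List.count_cons_of_ne (by decide)] at h
      simp only [step]
      rw [ih _ _ (by omega), mul_zero]
    | z =>
      rw [List.count_cons_of_ne (by decide)] at h
      simp only [step]
      rw [ih _ _ (by omega), mul_zero]

/-- Weights for `q`. -/
def Xw (q : K) (p : ℕ) : K := 1 / (1 - q ^ p)
def Yw (q : K) (m : ℕ) : K := q ^ m / (1 - q ^ m)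

/-- Weights for `1/q`, up to sign. -/
def Xw' (q : K) (p : ℕ) : K := q ^ p / (1 - q ^ p)
def Yw' (q : K) (m : ℕ) : K := 1 / (1 - q ^ m)

lemma one_sub_ne (q : K) (hq : ∀ n : ℕ, 0 < n → q ^ n ≠ 1) (n : ℕ) (hn : 0 < n) :
    (1 - q ^ n) ≠ 0 := by
  rw [sub_ne_zero]; exact (hq _ hn).symm

lemma relX (q : K) (hq : ∀ n : ℕ, 0 < n → q ^ n ≠ 1) (p i : ℕ) (hp : 1 ≤ p) :
    A q i (p + 1) * Xw' q (p + i) = Xw q p * q ^ p * q ^ i * A q i p := by
  have h : A q i (p + 1) * (1 - q ^ p) = A q i p * (1 - q ^ (p + i)) := by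
    rw [← A_succ, A_succ']
  have h1 := one_sub_ne q hq p (by omega)
  have h2 := one_sub_ne q hq (p + i) (by omega)
  rw [Xw', Xw]
  field_simp
  rw [pow_add]
  rw [pow_add] at h
  linear_combination (q ^ p * q ^ i) * h

lemma relB (q : K) (hq0 : q ≠ 0) (hq : ∀ n : ℕ, 0 < n → q ^ n ≠ 1) (m i : ℕ)
    (hi : i < m + 1) :
    B q i m * Yw' q (m + 1 - i) = Yw q (m + 1) * q ^ (-((m : ℤ) + 1)) * q ^ i * B q i (m + 1) := by
  have h : B q i m * (1 - q ^ (-((m : ℤ) + 1))) =
      B q i (m + 1) * (1 - q ^ ((i : ℤ) - ((m : ℤ) + 1))) := by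
    have := B_succ q i (m + 1)
    rw [B_succ'] at this
    rw [this]
    push_cast
    rfl
  obtain ⟨k, rfl⟩ : ∃ k, m = i + k := ⟨m - i, by omega⟩
  have h1 := one_sub_ne q hq (i + k + 1) (by omega)
  have h2 := one_sub_ne q hq (k + 1) (by omega)
  rw [show i + k + 1 - i = k + 1 by omega, Yw', Yw]
  have e1 : q ^ (-(((i + k : ℕ) : ℤ) + 1)) = (q ^ (i + k + 1))⁻¹ := by
    rw [zpow_neg]
    congr 1
    rw [← zpow_natCast]
    push_cast
    rfl
  have e2 : q ^ ((i : ℤ) - (((i + k : ℕ) : ℤ) + 1)) = (q ^ (k + 1))⁻¹ := by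
    rw [← zpow_natCast, ← zpow_neg]
    congr 1
    push_cast
    ring
  rw [e1, e2] at h
  rw [e1]
  have hk : q ^ (k + 1) ≠ 0 := pow_ne_zero _ hq0
  have hik : q ^ (i + k + 1) ≠ 0 := pow_ne_zero _ hq0
  have e3 : q ^ (i + k + 1) = q ^ i * q ^ (k + 1) := by rw [← pow_add]; ring_nf
  rw [e3] at h h1 hik ⊢
  have hi0 : q ^ i ≠ 0 := pow_ne_zero _ hq0
  generalize q ^ (k + 1) = a at *
  generalize q ^ i = b at *
  field_simp at h ⊢
  linear_combination (-1 : K) * h

lemma XY_eq (q : K) (hq : ∀ n : ℕ, 0 < n → q ^ n ≠ 1) (p m : ℕ) (hp : 1 ≤ p) (hm : 1 ≤ m) :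
    Xw q p + Yw q m = (1 - q ^ (p + m)) * Xw q p * Yw' q m := by
  have h1 := one_sub_ne q hq p (by omega)
  have h2 := one_sub_ne q hq m (by omega)
  rw [Xw, Yw, Yw', pow_add]
  field_simp
  ring

lemma XY_eq' (q : K) (hq : ∀ n : ℕ, 0 < n → q ^ n ≠ 1) (p m : ℕ) (hp : 1 ≤ p) (hm : 1 ≤ m) :
    Xw' q p + Yw' q m = (1 - q ^ (p + m)) * Xw q p * Yw' q m := by
  have h1 := one_sub_ne q hq p (by omega)
  have h2 := one_sub_ne q hq m (by omega)
  rw [Xw, Xw', Yw', pow_add]
  field_simp
  ring

lemma T_zero_right (q : K) (f : ℕ → ℕ → K) (p : ℕ) : T q f p 0 = f p 0 := by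
  simp [T, B_zero, A_zero]

lemma T_zero_left (q : K) (f : ℕ → ℕ → K) (m : ℕ) : T q f 0 m = f 0 m := by
  rw [T, sum_eq_single 0]
  · simp [B_zero, A_zero]
  · intro i _ hi
    obtain ⟨k, rfl⟩ : ∃ k, i = k + 1 := ⟨i - 1, by omega⟩
    rw [A_zero_succ]
    simp
  · intro h
    simp at h

lemma T_one (q : K) (hq0 : q ≠ 0) (hq : ∀ n : ℕ, 0 < n → q ^ n ≠ 1) (m : ℕ) :
    ∀ p : ℕ, T q (fun _ _ => (1 : K)) p m = 1 := by
  induction m with
  | zero => intro p; rw [T_zero_right]
  | succ m ih =>
    intro p
    rw [T_rec q hq0 hq, ih]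
    simp

/-- Main induction: the two value functions are intertwined by `T`. -/
lemma main (q : K) (hq0 : q ≠ 0) (hq : ∀ n : ℕ, 0 < n → q ^ n ≠ 1) (w : List Letter) :
    (w = [] ∨ w.getLast? = some x) → ∀ p m : ℕ, (1 ≤ p ∨ w.head? = some y) →
      V (Xw q) (Yw q) w p m = T q (V (Xw' q) (Yw' q) w) p m := by
  induction w with
  | nil =>
    intro _ p m _
    simp only [V]
    rw [T_one q hq0 hq]
  | cons u w ih =>
    intro hw p m hp
    have hw' : (w = [] ∧ u = x) ∨ (w ≠ [] ∧ w.getLast? = some x) := by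
      rcases hw with h | h
      · simp at h
      · by_cases hw0 : w = []
        · left
          subst hw0
          simp at h
          exact ⟨rfl, h⟩
        · right
          refine ⟨hw0, ?_⟩
          rw [List.getLast?_cons_of_ne_nil hw0] at h
          exact h
    have ihw : ∀ p m : ℕ, 1 ≤ p →
        V (Xw q) (Yw q) w p m = T q (V (Xw' q) (Yw' q) w) p m := by
      intro p m hp1
      apply ih _ p m (Or.inl hp1)
      rcases hw' with h | h
      · exact Or.inl h.1
      · exact Or.inr h.2
    have hV0 : w ≠ [] → ∀ p : ℕ, V (Xw' q) (Yw' q) w p 0 = 0 := by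
      intro h p
      obtain ⟨v, w', rfl⟩ := List.exists_cons_of_ne_nil h
      exact V_cons_zero _ _ _ _ _
    -- the step identity
    have hstep : ∀ p m : ℕ, (1 ≤ p ∨ u = y) →
        step (Xw q) (Yw q) (V (Xw q) (Yw q) w) u p (m + 1) =
          q ^ (-((p : ℤ) * ((m : ℤ) + 1))) * ∑ i ∈ range (m + 1), c q p m i *
            step (Xw' q) (Yw' q) (V (Xw' q) (Yw' q) w) u (p + i) (m + 1 - i) := by
      intro p m hp
      have hAne : ∀ i, A q i 1 ≠ 0 := A_ne q hq
      cases u with
      | x =>
        have hp1 : 1 ≤ p := by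
          rcases hp with h | h
          · exact h
          · exact absurd h (by decide)
        simp only [step, Nat.add_sub_cancel]
        rw [ihw p m hp1, T, mul_sum, mul_sum, mul_sum]
        apply sum_congr rfl
        intro i hi
        rw [mem_range] at hi
        have h := relX q hq p i hp1
        have e1 : q ^ (-((p : ℤ) * (m : ℤ))) = q ^ (-((p : ℤ) * ((m : ℤ) + 1))) * q ^ p := by
          rw [← zpow_natCast q p, ← zpow_add₀ hq0]
          congr 1
          ring
        rw [e1, c, show m + 1 - i - 1 = m - i by omega]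
        have h2 : B q i m * A q i (p + 1) / A q i 1 *
            (Xw' q (p + i) * V (Xw' q) (Yw' q) w (p + i) (m - i)) =
            B q i m / A q i 1 * (A q i (p + 1) * Xw' q (p + i)) *
              V (Xw' q) (Yw' q) w (p + i) (m - i) := by ring
        rw [h2, h]
        ring
      | y =>
        have hw0 : w ≠ [] := by
          rcases hw' with h | h
          · exact absurd h.2 (by decide)
          · exact h.1
        simp only [step]
        rw [ihw (p + 1) (m + 1) (by omega), T, sum_range_succ, Nat.sub_self, hV0 hw0, mul_zero,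
          add_zero, mul_sum, mul_sum, mul_sum]
        apply sum_congr rfl
        intro i hi
        rw [mem_range] at hi
        have h := relB q hq0 hq m i hi
        have e1 : q ^ (-(((p + 1 : ℕ) : ℤ) * ((m + 1 : ℕ) : ℤ))) =
            q ^ (-((p : ℤ) * ((m : ℤ) + 1))) * q ^ (-((m : ℤ) + 1)) := by
          rw [← zpow_add₀ hq0]
          congr 1
          push_cast
          ring
        rw [e1, c, show p + 1 + i = p + i + 1 by ring]
        have h2 : B q i m * A q i (p + 1) / A q i 1 *
            (Yw' q (m + 1 - i) * V (Xw' q) (Yw' q) w (p + i + 1) (m + 1 - i)) =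
            A q i (p + 1) / A q i 1 * (B q i m * Yw' q (m + 1 - i)) *
              V (Xw' q) (Yw' q) w (p + i + 1) (m + 1 - i) := by ring
        rw [h2, h]
        ring
      | z =>
        have hw0 : w ≠ [] := by
          rcases hw' with h | h
          · exact absurd h.2 (by decide)
          · exact h.1
        have hp1 : 1 ≤ p := by
          rcases hp with h | h
          · exact h
          · exact absurd h (by decide)
        simp only [step]
        rw [ihw p (m + 1) hp1, T, sum_range_succ, Nat.sub_self, hV0 hw0, mul_zero,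
          add_zero, mul_sum, mul_sum, mul_sum]
        apply sum_congr rfl
        intro i hi
        rw [mem_range] at hi
        have h := relB q hq0 hq m i hi
        have h' := relX q hq p i hp1
        rw [XY_eq q hq p (m + 1) hp1 (by omega), XY_eq' q hq (p + i) (m + 1 - i) (by omega)
          (by omega), show p + i + (m + 1 - i) = p + (m + 1) by omega, c]
        have hXX : A q i (p + 1) * Xw q (p + i) = Xw q p * A q i p := by
          have hA : A q i (p + 1) * (1 - q ^ p) = A q i p * (1 - q ^ (p + i)) := by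
            rw [← A_succ, A_succ']
          have h1 := one_sub_ne q hq p (by omega)
          have h2 := one_sub_ne q hq (p + i) (by omega)
          rw [Xw, Xw]
          field_simp
          linear_combination hA
        have hYY : Yw q (m + 1) * q ^ (-((m : ℤ) + 1)) = Yw' q (m + 1) := by
          rw [Yw, Yw', show (-((m : ℤ) + 1)) = -((m + 1 : ℕ) : ℤ) by push_cast; ring, zpow_neg,
            zpow_natCast]
          have h1 := one_sub_ne q hq (m + 1) (by omega)
          have h3 : q ^ (m + 1) ≠ 0 := pow_ne_zero _ hq0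
          field_simp
        rw [hYY] at h
        have h2 : B q i m * A q i (p + 1) / A q i 1 *
            ((1 - q ^ (p + (m + 1))) * Xw q (p + i) * Yw' q (m + 1 - i) *
              V (Xw' q) (Yw' q) w (p + i) (m + 1 - i)) =
            (1 - q ^ (p + (m + 1))) / A q i 1 * (A q i (p + 1) * Xw q (p + i)) *
              (B q i m * Yw' q (m + 1 - i)) *
              V (Xw' q) (Yw' q) w (p + i) (m + 1 - i) := by ring
        rw [h2, h, hXX]
        push_cast
        ring
    have hp' : 1 ≤ p ∨ u = y := by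
      rcases hp with h | h
      · exact Or.inl h
      · right
        simpa using h
    clear hp
    induction m generalizing p with
    | zero =>
      rw [T_zero_right, V_cons_zero, V_cons_zero]
    | succ m ihm =>
      rw [V_cons_succ, hstep p m hp', ihm (p + 1) (Or.inl (by omega)), T_rec q hq0 hq, add_comm]
      congr 2
      apply sum_congr rfl
      intro i hi
      rw [mem_range] at hi
      obtain ⟨k, rfl⟩ : ∃ k, m = i + k := ⟨m - i, by omega⟩
      rw [show i + k + 1 - i = k + 1 by omega, show i + k - i = k by omega, V_cons_succ]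
      ring

lemma V_neg (X Y : ℕ → K) (w : List Letter) : ∀ p m : ℕ,
    V (fun p => -X p) (fun m => -Y m) w p m = (-1) ^ w.length * V X Y w p m := by
  induction w with
  | nil => intro p m; simp [V]
  | cons u w ih =>
    intro p m
    simp only [V, List.length_cons, mul_sum]
    apply sum_congr rfl
    intro i _
    cases u with
    | x => simp only [step]; rw [ih]; ring
    | y => simp only [step]; rw [ih]; ring
    | z => simp only [step]; rw [ih]; ring

end Algebra

section Paths

variable {K : Type*} [Field K]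

/-- Weight of a letter at the lattice point `(p, m)`. -/
def fac (X Y : ℕ → K) (u : Letter) (p m : ℕ) : K :=
  match u with
  | x => X p
  | y => Y m
  | z => X p + Y m

/-- `1` for the letter `y`, `0` otherwise. -/
def isY (u : Letter) : ℕ := if u = y then 1 else 0

open Classical in
/-- Generalised sum: an offset `a` and a lower bound `n0` for the summation variables. -/
noncomputable def Zg (X Y : ℕ → K) (N : ℕ) (w : List Letter) (a n0 : ℕ) : K :=
  ∑ n ∈ (Finset.univ : Finset (Fin w.length → Fin (N + 1))).filter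
      (fun n : Fin w.length → Fin (N + 1) => Monotone n ∧ ∀ j, n0 ≤ (n j : ℕ)),
    ∏ j : Fin w.length, fac X Y (w.get j) ((n j : ℕ) + a + aIdx w j) (N + bIdx w j - (n j : ℕ))

lemma mono_cons {k N : ℕ} (a : Fin (N + 1)) (f : Fin k → Fin (N + 1)) :
    Monotone (Fin.cons a f : Fin (k + 1) → Fin (N + 1)) ↔ (∀ j, a ≤ f j) ∧ Monotone f := by
  constructor
  · intro h
    refine ⟨fun j => ?_, fun i j hij => ?_⟩
    · have := h (Fin.zero_le j.succ)
      simpa using this
    · have := h (Fin.succ_le_succ_iff.mpr hij)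
      simpa using this
  · rintro ⟨h1, h2⟩ i j hij
    induction i using Fin.cases with
    | zero =>
      induction j using Fin.cases with
      | zero => exact le_refl _
      | succ j => simpa using h1 j
    | succ i =>
      induction j using Fin.cases with
      | zero => exact absurd hij (by simp)
      | succ j =>
        have : i ≤ j := Fin.succ_le_succ_iff.mp hij
        simpa using h2 this

lemma aIdx_cons_zero (u : Letter) (w : List Letter) : aIdx (u :: w) 0 = isY u := by
  cases u <;> simp [aIdx, isY]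

lemma aIdx_cons_succ (u : Letter) (w : List Letter) (j : ℕ) :
    aIdx (u :: w) (j + 1) = isY u + aIdx w j := by
  cases u <;> simp [aIdx, isY, List.take_succ_cons] ; ring

lemma bIdx_cons_zero (u : Letter) (w : List Letter) : bIdx (u :: w) 0 = (u :: w).count x := by
  simp [bIdx]

lemma bIdx_cons_succ (u : Letter) (w : List Letter) (j : ℕ) :
    bIdx (u :: w) (j + 1) = bIdx w j := by
  simp [bIdx]

open Classical in
lemma Zg_cons (X Y : ℕ → K) (N : ℕ) (u : Letter) (w : List Letter) (a n0 : ℕ) :
    Zg X Y N (u :: w) a n0 = ∑ n1 : Fin (N + 1), if n0 ≤ (n1 : ℕ) then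
      fac X Y u ((n1 : ℕ) + a + isY u) (N + (u :: w).count x - (n1 : ℕ)) *
        Zg X Y N w (a + isY u) n1 else 0 := by
  unfold Zg
  rw [Finset.sum_filter]
  have e := (Fin.consEquiv (n := w.length) (fun _ => Fin (N + 1))).sum_comp
    (fun n : Fin (w.length + 1) → Fin (N + 1) =>
      if Monotone n ∧ ∀ j, n0 ≤ (n j : ℕ) then
      ∏ j : Fin (w.length + 1), fac X Y ((u :: w).get j) ((n j : ℕ) + a + aIdx (u :: w) j)
        (N + bIdx (u :: w) j - (n j : ℕ)) else 0)
  refine e.symm.trans ?_
  rw [Fintype.sum_prod_type]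
  apply sum_congr rfl
  intro n1 _
  split_ifs with h1
  · rw [Finset.sum_filter, mul_sum]
    apply sum_congr rfl
    intro n' _
    have hiff : (Monotone (Fin.consEquiv (n := w.length) (fun _ => Fin (N + 1)) (n1, n')) ∧
        ∀ j, n0 ≤ ((Fin.consEquiv (n := w.length) (fun _ => Fin (N + 1)) (n1, n') j : Fin (N + 1)) : ℕ))
        ↔ (Monotone n' ∧ ∀ j, (n1 : ℕ) ≤ (n' j : ℕ)) := by
      have := mono_cons n1 n'
      constructor
      · rintro ⟨h2, _⟩
        have h3 := this.mp h2
        exact ⟨h3.2, fun j => h3.1 j⟩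
      · rintro ⟨h2, h3⟩
        refine ⟨this.mpr ⟨fun j => h3 j, h2⟩, fun j => ?_⟩
        induction j using Fin.cases with
        | zero => exact h1
        | succ j => exact h1.trans (h3 j)
    by_cases h2 : Monotone n' ∧ ∀ j, (n1 : ℕ) ≤ (n' j : ℕ)
    · rw [if_pos h2, if_pos (hiff.mpr h2), Fin.prod_univ_succ]
      congr 1
      · show fac X Y u ((n1 : ℕ) + a + aIdx (u :: w) 0) (N + bIdx (u :: w) 0 - (n1 : ℕ)) = _
        rw [aIdx_cons_zero, bIdx_cons_zero]
      · apply prod_congr rfl
        intro j _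
        show fac X Y (w.get j) ((n' j : ℕ) + a + aIdx (u :: w) ((j : ℕ) + 1))
          (N + bIdx (u :: w) ((j : ℕ) + 1) - (n' j : ℕ)) = _
        rw [aIdx_cons_succ, bIdx_cons_succ]
        congr 1
        ring
    · rw [if_neg h2, if_neg (fun h => h2 (hiff.mp h)), mul_zero]
  · apply sum_eq_zero
    intro n' _
    rw [if_neg]
    rintro ⟨_, h2⟩
    exact h1 (h2 0)

lemma Zg_eq_V (X Y : ℕ → K) (N : ℕ) (w : List Letter) :
    (w = [] ∨ w.getLast? = some x) → ∀ a n0 : ℕ, n0 ≤ N →
      Zg X Y N w a n0 = V X Y w (n0 + a) (N + w.count x - n0) := by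
  induction w with
  | nil =>
    intro _ a n0 _
    simp only [Zg, V]
    rw [Finset.filter_true_of_mem]
    · simp
    · intro n _
      exact ⟨fun i => i.elim0, fun j => j.elim0⟩
  | cons u w ih =>
    intro hw a n0 hn0
    have hw' : (w = [] ∧ u = x) ∨ (w ≠ [] ∧ w.getLast? = some x) := by
      rcases hw with h | h
      · simp at h
      · by_cases hw0 : w = []
        · left
          subst hw0
          simp at h
          exact ⟨rfl, h⟩
        · right
          refine ⟨hw0, ?_⟩
          rw [List.getLast?_cons_of_ne_nil hw0] at h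
          exact h
    have hcx : 1 ≤ (u :: w).count x := by
      rcases hw' with h | h
      · rw [h.2]; simp
      · have : x ∈ w := List.mem_of_getLast? h.2
        exact List.count_pos_iff.mpr (List.mem_cons_of_mem _ this)
    have ihw : ∀ a n0 : ℕ, n0 ≤ N → Zg X Y N w a n0 = V X Y w (n0 + a) (N + w.count x - n0) := by
      apply ih
      rcases hw' with h | h
      · exact Or.inl h.1
      · exact Or.inr h.2
    rw [Zg_cons]
    rw [Fin.sum_univ_eq_sum_range (fun n1 => if n0 ≤ n1 then
      fac X Y u (n1 + a + isY u) (N + (u :: w).count x - n1) *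
        Zg X Y N w (a + isY u) n1 else 0) (N + 1)]
    simp only [V]
    -- right-hand side: only the first `N + 1 - n0` terms matter
    have hR : ∑ i ∈ range (N + (u :: w).count x - n0),
        step X Y (V X Y w) u (n0 + a + i) (N + (u :: w).count x - n0 - i) =
        ∑ i ∈ range (N + 1 - n0),
        step X Y (V X Y w) u (n0 + a + i) (N + (u :: w).count x - n0 - i) := by
      symm
      apply sum_subset
      · intro i hi
        rw [mem_range] at hi ⊢
        omega
      · intro i hi hi'
        rw [mem_range] at hi hi'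
        cases u with
        | x =>
          simp only [List.count_cons_self] at hi hi' ⊢
          simp only [step]
          rw [V_eq_zero _ _ _ _ _ (by omega), mul_zero]
        | y =>
          rw [List.count_cons_of_ne (by decide)] at hi ⊢
          simp only [step]
          rw [V_eq_zero _ _ _ _ _ (by omega), mul_zero]
        | z =>
          rw [List.count_cons_of_ne (by decide)] at hi ⊢
          simp only [step]
          rw [V_eq_zero _ _ _ _ _ (by omega), mul_zero]
    rw [hR]
    rw [← sum_filter]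
    symm
    apply sum_bij (fun i _ => n0 + i)
    · intro i hi
      rw [mem_range] at hi
      rw [mem_filter, mem_range]
      omega
    · intro i _ j _ h
      omega
    · intro n hn
      rw [mem_filter, mem_range] at hn
      exact ⟨n - n0, by rw [mem_range]; omega, by omega⟩
    · intro i hi
      rw [mem_range] at hi
      rw [ihw _ _ (by omega)]
      cases u with
      | x =>
        simp only [List.count_cons_self, step, fac, isY]
        rw [if_neg (by decide)]
        congr 2 <;> omega
      | y =>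
        rw [List.count_cons_of_ne (by decide)]
        simp only [step, fac, isY, if_true]
        congr 2 <;> omega
      | z =>
        rw [List.count_cons_of_ne (by decide)]
        simp only [step, fac, isY]
        rw [if_neg (by decide)]
        have e1 : n0 + a + i = n0 + i + a + 0 := by omega
        have e2 : n0 + a + i = n0 + i + (a + 0) := by omega
        have e3 : N + List.count x w - n0 - i = N + List.count x w - (n0 + i) := by omega
        rw [← e2, ← e1, e3]

lemma factor_eq (q : K) (hq0 : q ≠ 0) (N : ℕ) (w : List Letter) (j : Fin w.length) (n : ℕ)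
    (hn : n ≤ N) :
    factor q N w j n = fac (Xw q) (Yw q) (w.get j) (n + 0 + aIdx w j) (N + bIdx w j - n) := by
  have e1 : 1 / (1 - q ^ ((n : ℤ) + (aIdx w j : ℤ))) = Xw q (n + 0 + aIdx w j) := by
    rw [Xw, add_zero, ← zpow_natCast]
    push_cast
    rfl
  have e2 : -1 / (1 - q ^ ((n : ℤ) - (N : ℤ) - (bIdx w j : ℤ))) = Yw q (N + bIdx w j - n) := by
    obtain ⟨k, hk⟩ : ∃ k, k = N + bIdx w j - n := ⟨_, rfl⟩
    have hk' : (n : ℤ) - (N : ℤ) - (bIdx w j : ℤ) = -(k : ℤ) := by omega
    rw [hk', ← hk, Yw, zpow_neg, zpow_natCast]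
    have hqk : q ^ k ≠ 0 := pow_ne_zero _ hq0
    by_cases h : q ^ k = 1
    · rw [h]; simp
    · have h1 : (1 : K) - q ^ k ≠ 0 := by rw [sub_ne_zero]; exact fun h' => h h'.symm
      have h2 : (1 : K) - (q ^ k)⁻¹ ≠ 0 := by
        intro h3
        apply h
        field_simp at h3
        linear_combination h3
      rw [div_eq_div_iff h2 h1]
      field_simp
      ring
  unfold factor
  cases w.get j with
  | x => simp only [fac]; exact e1
  | y => simp only [fac]; exact e2
  | z =>
    simp only [fac]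
    rw [← e1, ← e2]
    ring

lemma Z_eq_V (q : K) (hq0 : q ≠ 0) (N : ℕ) (w : List Letter)
    (hw : w = [] ∨ w.getLast? = some x) :
    Z q N w = V (Xw q) (Yw q) w 0 (N + w.count x) := by
  have h := Zg_eq_V (Xw q) (Yw q) N w hw 0 0 (Nat.zero_le _)
  rw [zero_add, Nat.sub_zero] at h
  rw [← h, Z, Zg]
  have : (Finset.univ : Finset (Fin w.length → Fin (N + 1))).filter
      (fun n : Fin w.length → Fin (N + 1) => Monotone n ∧ ∀ j, 0 ≤ (n j : ℕ)) =
      (Finset.univ : Finset (Fin w.length → Fin (N + 1))).filter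
        (fun n : Fin w.length → Fin (N + 1) => Monotone n) := by
    apply filter_congr
    intro n _
    simp
  rw [this]
  apply sum_congr rfl
  intro n _
  apply prod_congr rfl
  intro j _
  exact factor_eq q hq0 N w j (n j) (by have := (n j).isLt; omega)

/-- The inversion symmetry over an arbitrary field, for `q` not a root of unity. -/
theorem inversion (q : K) (hq0 : q ≠ 0) (hq : ∀ n : ℕ, 0 < n → q ^ n ≠ 1) (N : ℕ)
    (w : List Letter) (hw : w = [] ∨ (w.head? = some y ∧ w.getLast? = some x)) :
    Z q⁻¹ N w = (-1) ^ w.length * Z q N w := by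
  have hw' : w = [] ∨ w.getLast? = some x := by
    rcases hw with h | h
    · exact Or.inl h
    · exact Or.inr h.2
  rw [Z_eq_V q hq0 N w hw', Z_eq_V q⁻¹ (inv_ne_zero hq0) N w hw']
  have hX : Xw q⁻¹ = fun p => -Xw' q p := by
    funext p
    rw [Xw, Xw', inv_pow]
    have hqk : q ^ p ≠ 0 := pow_ne_zero _ hq0
    by_cases h : q ^ p = 1
    · rw [h]; simp
    · have h1 : (1 : K) - q ^ p ≠ 0 := by rw [sub_ne_zero]; exact fun h' => h h'.symm
      have h2 : (1 : K) - (q ^ p)⁻¹ ≠ 0 := by
        intro h3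
        apply h
        field_simp at h3
        linear_combination h3
      rw [← neg_div, div_eq_div_iff h2 h1]
      field_simp
      ring
  have hY : Yw q⁻¹ = fun p => -Yw' q p := by
    funext p
    rw [Yw, Yw', inv_pow]
    have hqk : q ^ p ≠ 0 := pow_ne_zero _ hq0
    by_cases h : q ^ p = 1
    · rw [h]; simp
    · have h1 : (1 : K) - q ^ p ≠ 0 := by rw [sub_ne_zero]; exact fun h' => h h'.symm
      have h2 : (1 : K) - (q ^ p)⁻¹ ≠ 0 := by
        intro h3
        apply h
        field_simp at h3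
        linear_combination h3
      rw [← neg_div, div_eq_div_iff h2 h1]
      field_simp
      ring
  rw [hX, hY, V_neg]
  congr 1
  rcases hw with h | h
  · subst h
    simp [V]
  · rw [main q hq0 hq w (Or.inr h.2) 0 _ (Or.inr h.1), T_zero_left]

end Paths

section Automorphism

lemma map_Z {K : Type*} [Field K] (σ : K →+* K) (q : K) (N : ℕ) (w : List Letter) :
    σ (Z q N w) = Z (σ q) N w := by
  unfold Z
  rw [map_sum]
  apply sum_congr rfl
  intro n _
  rw [map_prod]
  apply prod_congr rfl
  intro j _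
  unfold factor
  cases w.get j <;> simp [map_div₀, map_sub, map_zpow₀]

open Polynomial in
lemma aeval_inv_ne {F : Type*} [Field F] (p : F[X]) (hp : p ≠ 0) :
    Polynomial.aeval (RatFunc.X : RatFunc F)⁻¹ p ≠ 0 := by
  intro h
  have htr : Transcendental F (RatFunc.X : RatFunc F)⁻¹ := by
    intro halg
    exact RatFunc.transcendental_X (K := F) (IsAlgebraic.inv_iff.mp halg)
  exact htr ⟨p, hp, h⟩

open Polynomial in
/-- Substitution of `1/X` for `X`, as a ring homomorphism. -/
noncomputable def invHomF (F : Type*) [Field F] : RatFunc F →+* RatFunc F :=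
  RatFunc.liftRingHom (Polynomial.aeval (RatFunc.X : RatFunc F)⁻¹ : F[X] →ₐ[F] RatFunc F).toRingHom
    (by
      intro p hp
      have hp0 : p ≠ 0 := nonZeroDivisors.ne_zero hp
      rw [Submonoid.mem_comap]
      apply mem_nonZeroDivisors_of_ne_zero
      intro h
      exact aeval_inv_ne p hp0 h)

lemma invHomF_X (F : Type*) [Field F] : invHomF F RatFunc.X = (RatFunc.X : RatFunc F)⁻¹ := by
  unfold invHomF
  rw [RatFunc.liftRingHom_X]
  simp

/-- Substitution of `1/X` for `X`, as a ring homomorphism. -/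
noncomputable def invHom : RatFunc ℚ →+* RatFunc ℚ := invHomF ℚ

lemma invHom_X : invHom RatFunc.X = (RatFunc.X : RatFunc ℚ)⁻¹ := invHomF_X ℚ

lemma hom_ext (f g : RatFunc ℚ →+* RatFunc ℚ) (h : f RatFunc.X = g RatFunc.X) : f = g := by
  apply IsFractionRing.ringHom_ext (A := Polynomial ℚ)
  intro p
  have : f.comp (algebraMap (Polynomial ℚ) (RatFunc ℚ)) =
      g.comp (algebraMap (Polynomial ℚ) (RatFunc ℚ)) := by
    apply Polynomial.ringHom_ext
    · intro a
      simp
    · simpa using h
  exact congrArg (fun φ : Polynomial ℚ →+* RatFunc ℚ => φ p) this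

lemma X_pow_ne_one (n : ℕ) (hn : 0 < n) : (RatFunc.X : RatFunc ℚ) ^ n ≠ 1 := by
  intro h
  rw [← RatFunc.algebraMap_X, ← map_pow, ← map_one (algebraMap (Polynomial ℚ) (RatFunc ℚ))] at h
  have h2 := RatFunc.algebraMap_injective ℚ h
  have h3 := congrArg Polynomial.natDegree h2
  simp at h3
  omega

/-- The substitution `q ↦ 1/q` as a field automorphism. -/
noncomputable def invEquiv : RatFunc ℚ ≃+* RatFunc ℚ :=
  RingEquiv.ofRingHom invHom invHom
    (by
      apply hom_ext
      simp [invHom_X])
    (by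
      apply hom_ext
      simp [invHom_X])

end Automorphism

/-- **The q-inversion symmetry.**  There is a field automorphism `σ` of the field `ℚ(q)` of
rational functions in one indeterminate `q = RatFunc.X` with `σ q = q⁻¹` (and only one), and for
all `N ≥ 0` and all words `w` which are empty or begin with `y` and end with `x`, the image under
`σ` of `Z_{N,q}(w)` equals `(-1)^k Z_{N,q}(w)`, where `k` is the length of `w`. -/
theorem result : ∃ σ : RatFunc ℚ ≃+* RatFunc ℚ,
    σ RatFunc.X = (RatFunc.X : RatFunc ℚ)⁻¹ ∧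
    (∀ τ : RatFunc ℚ ≃+* RatFunc ℚ, τ RatFunc.X = (RatFunc.X : RatFunc ℚ)⁻¹ → τ = σ) ∧
    ∀ (N : ℕ) (w : List Letter), (w = [] ∨ (w.head? = some y ∧ w.getLast? = some x)) →
      σ (Z (RatFunc.X : RatFunc ℚ) N w) = (-1) ^ w.length * Z (RatFunc.X : RatFunc ℚ) N w := by
  refine ⟨invEquiv, invHom_X, ?_, ?_⟩
  · intro τ hτ
    have : (τ : RatFunc ℚ →+* RatFunc ℚ) = (invEquiv : RatFunc ℚ →+* RatFunc ℚ) := by
      apply hom_ext
      show τ RatFunc.X = invHom RatFunc.X
      rw [hτ, invHom_X]
    ext t
    exact congrArg (fun φ : RatFunc ℚ →+* RatFunc ℚ => φ t) this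
  · intro N w hw
    show invHom (Z (RatFunc.X : RatFunc ℚ) N w) = _
    rw [map_Z, invHom_X]
    exact inversion RatFunc.X RatFunc.X_ne_zero X_pow_ne_one N w hw

end Pool.Agent.Results.MP_aa79fc_nt.QInversion
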